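import Pool.Agent.H44.P4.Lemma
import Pool.Agent.H17.P3.Defs

set_option autoImplicit false

/-!
The matrix statement (P3) from the LEMMA of helper44 (MP_a46c6f_co, note 7046).
-/

namespace Pool.Agent.H57.P4

open Pool.Agent.H44.P4 Classical

variable {V : Type}

/-- `C` contains every vertex which agrees with `C` wherever `C` is constant -/
def Clo (A : V → V → Prop) (C : Finset V) : Prop :=
  ∀ g, (∀ y, (∀ u ∈ C, ∀ v ∈ C, (A u y ↔ A v y)) → ∀ u ∈ C, (A g y ↔ A u y)) → g ∈ C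

lemma Clo.filter {A : V → V → Prop} {C : Finset V} (h : Clo A C) (w : V) (s : Prop)
    (hne : (C.filter fun y => (A y w ↔ s)).Nonempty) : Clo A (C.filter fun y => (A y w ↔ s)) := by
  intro g hg
  obtain ⟨u₀, hu₀⟩ := hne
  have hm : ∀ y, y ∈ (C.filter fun y => (A y w ↔ s)) ↔ y ∈ C ∧ (A y w ↔ s) :=
    fun y => Finset.mem_filter
  have hu₀' := (hm u₀).1 hu₀
  rw [hm]
  constructor
  · apply h
    intro y hy u hu
    have h1 := hg y (fun a ha b hb => hy a ((hm a).1 ha).1 b ((hm b).1 hb).1) u₀ hu₀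
    exact h1.trans (hy u₀ hu₀'.1 u hu)
  · have h1 := hg w (fun a ha b hb => ((hm a).1 ha).2.trans ((hm b).1 hb).2.symm) u₀ hu₀
    exact h1.trans hu₀'.2

theorem free_of_clo (A : V → V → Prop) (hs : ∀ x y, A x y → A y x)
    (hp : ∀ u v, (A u u ↔ A v v) → (A u v ↔ ¬ A u u) → ∃ g,
      (A g g ↔ ¬ A u u) ∧ (A g u ↔ ¬ A u u) ∧ (A g v ↔ ¬ A u u) ∧
        ∀ y, (A u y ↔ A v y) → (A g y ↔ A u y))
    (h4 : ∀ a b c d, Pool.Agent.H44.P4.P4 A a b c d → ¬ A a a → A b b → A c c → ¬ A d d →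
      ∃ g, Pool.Agent.H44.P4.Bad A a b c d g ∧
        ∀ y, (A a y ↔ A b y) → (A b y ↔ A c y) → (A c y ↔ A d y) → (A g y ↔ A a y)) :
    ∀ C : Finset V, Clo A C → Free A C := by
  intro C
  induction C using Finset.strongInduction with
  | H C ih =>
    intro hC
    by_contra hex
    have key : ∀ (w : V) (s : Prop) (D : Finset V), (∃ y ∈ C, ¬ (A y w ↔ s)) →
        (∀ x ∈ D, x ∈ C ∧ (A x w ↔ s)) → Free A D := by
      intro w s D hy hD
      suffices hF : Free A (C.filter fun y => (A y w ↔ s)) from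
        hF.mono (fun x hx => Finset.mem_filter.2 (hD x hx))
      by_cases hne : (C.filter fun y => (A y w ↔ s)).Nonempty
      · obtain ⟨y, hy, hyw⟩ := hy
        refine ih _ ((Finset.ssubset_iff_of_subset (Finset.filter_subset _ _)).2 ⟨y, hy, ?_⟩)
          (hC.filter w s hne)
        intro hh
        exact hyw (Finset.mem_filter.1 hh).2
      · intro a ha
        exact absurd ⟨a, ha⟩ hne
    have h : Cyl A C := by
      refine ⟨hs, ?_, ?_, ?_⟩
      · intro u hu v hv h1 h2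
        obtain ⟨g, g1, g2, g3, g4⟩ := hp u v h1 h2
        refine ⟨g, ?_, g1, g2, g3, fun y _ => g4 y⟩
        apply hC
        intro y hy x hx
        exact (g4 y (hy u hu v hv)).trans (hy u hu x hx)
      · intro w hw hy
        refine key w True _ (by
          obtain ⟨y, hy, hwy⟩ := hy
          exact ⟨y, hy, fun hh => hwy (hs _ _ (hh.2 trivial))⟩) ?_
        intro x hx
        rw [Finset.mem_filter] at hx
        exact ⟨hx.1, ⟨fun _ => trivial, fun _ => hs _ _ hx.2⟩⟩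
      · intro w hw hy
        refine key w False _ (by
          obtain ⟨y, hy, hwy⟩ := hy
          exact ⟨y, hy, fun hh => (hh.1 (hs _ _ hwy)).elim⟩) ?_
        intro x hx
        rw [Finset.mem_filter] at hx
        exact ⟨hx.1, ⟨fun hh => hx.2 (hs _ _ hh), fun hh => hh.elim⟩⟩
    obtain ⟨a, ha, b, hb, c, hc, d, hd, hP, l1, l2, l3, l4, hbad⟩ := h.good hex
    obtain ⟨g, hg, hag⟩ := h4 a b c d hP l1 l2 l3 l4
    refine hbad g (hC g ?_) hg
    intro y hy u hu
    exact (hag y (hy a ha b hb) (hy b hb c hc) (hy c hc d hd)).trans (hy a ha u hu)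

lemma ne_one_iff {x : ZMod 2} : x ≠ 1 ↔ x = 0 := by
  revert x; decide

lemma eq_iff {x y : ZMod 2} : x = y ↔ (x = 1 ↔ y = 1) := by
  revert x y; decide

lemma ne_iff' {x y : ZMod 2} : x ≠ y ↔ (x = 1 ↔ ¬ y = 1) := by
  revert x y; decide

/-- **the matrix statement** -/
theorem p3 : Pool.Agent.H17.P3.P3 := by
  intro X _ M hs hp h4 a b c d hP
  have : Fintype X := Fintype.ofFinite X
  have h := free_of_clo (fun x y => M x y = 1) (fun x y hxy => by rw [hs]; exact hxy) ?_ ?_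
    Finset.univ (fun g _ => Finset.mem_univ g) a (Finset.mem_univ _) b (Finset.mem_univ _) c
    (Finset.mem_univ _) d (Finset.mem_univ _)
  · refine h ⟨hP.ab, hP.bc, hP.cd, ?_, ?_, ?_⟩
    · exact fun hh => one_ne_zero (hh.symm.trans hP.ac)
    · exact fun hh => one_ne_zero (hh.symm.trans hP.ad)
    · exact fun hh => one_ne_zero (hh.symm.trans hP.bd)
  · intro u v h1 h2
    obtain ⟨g, g1, g2, g3, g4⟩ := hp u v (eq_iff.2 h1) (ne_iff'.2 h2)
    refine ⟨g, ne_iff'.1 g1, ?_, ?_, ?_⟩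
    · show M g u = 1 ↔ _
      rw [g2]; exact ne_iff'.1 g1
    · show M g v = 1 ↔ _
      rw [g3]; exact ne_iff'.1 g1
    · intro y hy
      exact eq_iff.1 (g4 y (eq_iff.2 hy))
  · intro a b c d hP l1 l2 l3 l4
    obtain ⟨p1, p2, p3, p4, p5, p6⟩ := hP
    obtain ⟨g, hg, hag⟩ := h4 a b c d
      ⟨p1, p2, p3, ne_one_iff.1 p4, ne_one_iff.1 p5, ne_one_iff.1 p6⟩
      (ne_one_iff.1 l1) l2 l3 (ne_one_iff.1 l4)
    refine ⟨g, ?_, ?_⟩
    · obtain ⟨q1, q2⟩ := hg
      rw [ne_iff'] at q1 q2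
      unfold Pool.Agent.H44.P4.Bad
      tauto
    · intro y k1 k2 k3
      exact eq_iff.1 (hag y (eq_iff.2 k1) (eq_iff.2 (k1.trans k2)) (eq_iff.2 (k1.trans (k2.trans k3))))

end Pool.Agent.H57.P4
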